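import Pool.Agent.Helper79.SA.Goals

/-! # MP_4137ca_lc, packet GTV: Boolean value of membership in a coded G_delta set -/

open MeasureTheory Filter Topology Set

noncomputable section

namespace SA.PkGTV

open Pool.Agent.Helper97.Ku

variable {K : Type}

theorem mcoord {h : (K → Rl) → Rl} (hh : Measurable h) (i : ℕ) :
    MeasurableSet {z | h z i = true} := by
  have h1 : Measurable fun z => h z i := (measurable_pi_apply i).comp hh
  exact h1 (measurableSet_singleton true)

theorem mA {h : (K → Rl) → Rl} (hh : Measurable h) (s : Finset ℕ) (m : ℕ) :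
    MeasurableSet {z | ∀ i < m, (i ∈ s ↔ h z i = true)} := by
  have h1 : {z | ∀ i < m, (i ∈ s ↔ h z i = true)} =
      ⋂ i : ℕ, ⋂ _ : i < m, {z | (i ∈ s ↔ h z i = true)} := by
    ext z
    simp only [mem_ofPred_eq, mem_iInter]
  rw [h1]
  refine MeasurableSet.iInter fun i => MeasurableSet.iInter fun _ => ?_
  by_cases hi : i ∈ s
  · have h2 : {z | (i ∈ s ↔ h z i = true)} = {z | h z i = true} := by
      ext z; simp [hi]
    rw [h2]; exact mcoord hh i
  · have h2 : {z | (i ∈ s ↔ h z i = true)} = {z | h z i = true}ᶜ := by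
      ext z; simp [hi]
    rw [h2]; exact (mcoord hh i).compl

theorem gtv (eh : G_EH) : G_GTV := by
  intro K _ T h h' hh hh'
  obtain ⟨-, -, -, -, -, e6, e7, e8, e9, e10⟩ := eh K
  -- suprema over propositions
  have eP : ∀ (P : Prop) (X : Set (K → Rl)), (⨆ _ : P, (ee X : RO (Cnd K))) =
      ee {z | P ∧ z ∈ X} := by
    intro P X
    by_cases hP : P
    · simp [hP]
    · have h1 : {z : K → Rl | P ∧ z ∈ X} = ∅ := by
        ext z; simp [hP]
      rw [h1, e6]
      simp [hP]
  have eA : ∀ (g : (K → Rl) → Rl) (s : Finset ℕ) (m : ℕ), Measurable g →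
      agr (fun n => (ee {z | g z n = true} : RO (Cnd K))) s m =
        ee {z | ∀ i < m, (i ∈ s ↔ g z i = true)} := by
    intro g s m hg
    unfold agr
    have h1 : ∀ i : Fin m, bit (ee {z | g z i = true} : RO (Cnd K)) ((i : ℕ) ∈ s) =
        ee {z | ((i : ℕ) ∈ s ↔ g z i = true)} := by
      intro i
      unfold bit
      split_ifs with hi
      · congr 1
        ext z; simp [hi]
      · rw [← e8 _ (mcoord hg i)]
        congr 1
        ext z; simp [hi]
    rw [iInf_congr h1, ← e9 (Fin m)]
    congr 1
    ext z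
    simp only [mem_iInter, mem_ofPred_eq]
    exact Fin.forall_iff
  -- the sets
  set A : Finset ℕ → ℕ → Set (K → Rl) := fun s m => {z | ∀ i < m, (i ∈ s ↔ h z i = true)} with hA
  set A' : Finset ℕ → ℕ → Set (K → Rl) := fun s m => {z | ∀ i < m, (i ∈ s ↔ h' z i = true)}
    with hA'
  set X : ℕ → Finset ℕ → Finset ℕ → Set (K → Rl) := fun m s t =>
    {z | ((s, t) ∈ T ∧ NU.LastN s m ∧ NU.LastN t m) ∧ z ∈ A s m ∩ A' t m} with hX
  have mX : ∀ m s t, MeasurableSet (X m s t) := by
    intro m s t
    by_cases hP : (s, t) ∈ T ∧ NU.LastN s m ∧ NU.LastN t m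
    · have h1 : X m s t = A s m ∩ A' t m := by
        ext z
        simp only [hX, mem_ofPred_eq]
        exact ⟨fun h => h.2, fun h => ⟨hP, h⟩⟩
      rw [h1]
      exact (mA hh s m).inter (mA hh' t m)
    · have h1 : X m s t = ∅ := by
        ext z
        simp only [hX, mem_ofPred_eq, mem_empty_iff_false, iff_false]
        exact fun h => hP h.1
      rw [h1]
      exact MeasurableSet.empty
  set Y : ℕ → ℕ → Set (K → Rl) := fun n m => {z | n < m ∧ z ∈ ⋃ s, ⋃ t, X m s t} with hY
  have mY : ∀ n m, MeasurableSet (Y n m) := by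
    intro n m
    by_cases hP : n < m
    · have h1 : Y n m = ⋃ s, ⋃ t, X m s t := by
        ext z
        simp only [hY, mem_ofPred_eq]
        exact ⟨fun h => h.2, fun h => ⟨hP, h⟩⟩
      rw [h1]
      exact MeasurableSet.iUnion fun s => MeasurableSet.iUnion fun t => mX m s t
    · have h1 : Y n m = ∅ := by
        ext z
        simp only [hY, mem_ofPred_eq, mem_empty_iff_false, iff_false]
        exact fun h => hP h.1
      rw [h1]
      exact MeasurableSet.empty
  have hset : {z | (h z, h' z) ∈ GT T} = ⋂ n : ℕ, ⋃ m : ℕ, Y n m := by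
    ext z
    simp only [GT, Hit, mem_ofPred_eq, mem_iInter, mem_iUnion, hY, hX, hA, hA', mem_inter_iff]
    refine forall_congr' fun n => exists_congr fun m => and_congr_right fun _ =>
      exists_congr fun s => exists_congr fun t => ?_
    tauto
  constructor
  · rw [hset]
    exact MeasurableSet.iInter fun n => MeasurableSet.iUnion fun m => mY n m
  · rw [hset, e9 ℕ]
    unfold gtV
    refine iInf_congr fun n => ?_
    rw [e10 ℕ _ (mY n)]
    refine iSup_congr fun m => ?_
    rw [hY]
    simp only
    rw [← eP, e10 (Finset ℕ) _ (fun s => MeasurableSet.iUnion fun t => mX m s t)]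
    refine iSup_congr fun _ => iSup_congr fun s => ?_
    rw [e10 (Finset ℕ) _ (mX m s)]
    refine iSup_congr fun t => ?_
    rw [hX]
    simp only
    rw [← eP, e7, eA h s m hh, eA h' t m hh']

end SA.PkGTV
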